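import Pool.Agent.H99.CS.Inv
import Pool.Agent.H99.CS.Sharp

/-!
# Scaling limits of the coincidence sets and of the span sets of nearest neighbour processes

The coincidence set of order `ι` (a finite index set, for instance `Fin m`) of a path `x` on `[0,1]`
is the set of all families `(u i)` of times with `x (u i) = x (u j)` for all `i, j`; the span set
is the set of all `t - s` with `s ≤ t` and `x s = x t`.
-/

open MeasureTheory ProbabilityTheory Filter Topology Set TopologicalSpace
open scoped ENNReal NNReal unitInterval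

namespace Pool.Agent.Results.MP_52e894_pr.CoincidenceSets

open Pool.Agent.H99.CS Pool.Agent.R974.Span

/-- A simple symmetric random walk on `ℤ`: the steps are independent and equal to `±1` with
probability `1/2` each. The starting point `RW 0` is arbitrary. -/
structure IsSimpleRandomWalk {Ω : Type*} [MeasurableSpace Ω] (RW : ℕ → Ω → ℤ) (P : Measure Ω) :
    Prop where
  measurable : ∀ k, Measurable (RW k)
  indep : iIndepFun (fun k ω => RW (k + 1) ω - RW k ω) P
  up : ∀ k, P {ω | RW (k + 1) ω - RW k ω = 1} = 1 / 2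
  down : ∀ k, P {ω | RW (k + 1) ω - RW k ω = -1} = 1 / 2

/-- The coincidence set of order `ι` of a path on `[0, 1]`: all families of times at which the path
takes the same value. -/
def coinSet (ι : Type) (x : I → ℝ) : Set (ι → I) := {u | ∀ i j, x (u i) = x (u j)}

/-- The rescaled coincidence set of order `ι` of the first `N` steps of a sequence of integers. -/
def walkCoinSet (ι : Type) (N : ℕ) (z : ℕ → ℤ) : Set (ι → I) :=
  {u | ∃ k : ι → ℕ, (∀ i, k i ≤ N) ∧ (∀ i j, z (k i) = z (k j)) ∧ ∀ i, (u i : ℝ) = (k i : ℝ) / N}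

/-- The span set `{t - s : 0 ≤ s ≤ t ≤ 1, x s = x t}` of a path on `[0, 1]`. -/
def spanSet (x : I → ℝ) : Set I := {d | ∃ s t : I, s ≤ t ∧ x s = x t ∧ (d : ℝ) = t - s}

/-- The rescaled set of spans in `N` steps `(1/N) {k - l : 0 ≤ l ≤ k ≤ N, z k = z l}`. -/
def walkSpanSet (N : ℕ) (z : ℕ → ℤ) : Set I :=
  {d | ∃ l k : ℕ, l ≤ k ∧ k ≤ N ∧ z k = z l ∧ (d : ℝ) = ((k : ℝ) - l) / N}

lemma coinSet_nonempty (ι : Type) (x : I → ℝ) : (coinSet ι x).Nonempty :=
  ⟨fun _ => 0, fun _ _ => rfl⟩

lemma walkCoinSet_nonempty (ι : Type) (N : ℕ) (z : ℕ → ℤ) : (walkCoinSet ι N z).Nonempty :=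
  coinN_nonempty ι N z

lemma spanSet_nonempty (x : I → ℝ) : (spanSet x).Nonempty := ⟨0, 0, 0, le_rfl, rfl, by simp⟩

lemma walkSpanSet_nonempty (N : ℕ) (z : ℕ → ℤ) : (walkSpanSet N z).Nonempty :=
  ⟨0, 0, 0, le_rfl, Nat.zero_le _, rfl, by simp⟩

/-- The closure of a nonempty subset of a compact space, as a nonempty compact set. -/
def toK {α : Type*} [TopologicalSpace α] [CompactSpace α] (A : Set α) (hA : A.Nonempty) :
    NonemptyCompacts α :=
  ⟨⟨closure A, isClosed_closure.isCompact⟩, hA.closure⟩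

/-- The coincidence set of a path as a point of the space of nonempty compact subsets of
`[0,1]^ι`. -/
def coinK (ι : Type) (x : I → ℝ) : NonemptyCompacts (ι → I) := toK (coinSet ι x) (coinSet_nonempty _ _)

/-- The rescaled coincidence set of a sequence as a nonempty compact set. -/
def walkCoinK (ι : Type) (N : ℕ) (z : ℕ → ℤ) : NonemptyCompacts (ι → I) :=
  toK (walkCoinSet ι N z) (walkCoinSet_nonempty _ _ _)

/-- The span set of a path as a nonempty compact subset of `[0, 1]`. -/
def spanK (x : I → ℝ) : NonemptyCompacts I := toK (spanSet x) (spanSet_nonempty _)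

/-- The rescaled span set of a sequence as a nonempty compact set. -/
def walkSpanK (N : ℕ) (z : ℕ → ℤ) : NonemptyCompacts I :=
  toK (walkSpanSet N z) (walkSpanSet_nonempty _ _)

lemma dist_toK {α : Type*} [MetricSpace α] [CompactSpace α] {A B : Set α} (hA : A.Nonempty)
    (hB : B.Nonempty) : dist (toK A hA) (toK B hB) = Metric.hausdorffDist A B := by
  rw [Metric.NonemptyCompacts.dist_eq]
  change Metric.hausdorffDist (closure A) (closure B) = _
  rw [Metric.hausdorffDist_closure]

lemma stable_coin {ι : Type} [Fintype ι] {f : ℝ≥0 → ℝ} (hf : Continuous f) (hnd : NDG f) :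
    Stable (fun N z => walkCoinK ι N z) f (coinK ι fun y => f (tm y)) := by
  intro ε hε
  obtain ⟨δ, hδ, N0, h⟩ := stabC (ι := ι) hf hnd hε
  refine ⟨δ, hδ, N0, fun N hN hN' a ha z hz hc => ?_⟩
  have h1 := h N hN hN' a ha z hz hc
  unfold walkCoinK coinK
  rw [dist_toK]
  exact h1

lemma image_spanSet (f : ℝ≥0 → ℝ) : Subtype.val '' spanSet (fun y => f (tm y)) = Sp f := by
  ext u
  constructor
  · rintro ⟨v, ⟨s, t, h1, h2, h3⟩, rfl⟩
    exact ⟨tm s, tm t, h1, tm_le t, h2, h3⟩
  · rintro ⟨s, t, h1, h2, h3, h4⟩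
    have h5 : (s : ℝ) ≤ t := h1
    have h6 : (t : ℝ) ≤ 1 := h2
    have h7 : (0 : ℝ) ≤ s := s.2
    refine ⟨⟨u, by rw [h4]; linarith, by rw [h4]; linarith⟩,
      ⟨⟨s, s.2, h5.trans h6⟩, ⟨t, t.2, h6⟩, h1, h3, h4⟩, rfl⟩

lemma image_walkSpanSet (N : ℕ) (Z : ℕ → ℤ) :
    Subtype.val '' walkSpanSet N Z = SpN N (fun k => (Z k : ℝ)) := by
  ext u
  constructor
  · rintro ⟨v, ⟨l, k, h1, h2, h3, h4⟩, rfl⟩
    exact ⟨l, k, h1, h2, by simp only [h3], h4⟩
  · rintro ⟨l, k, h1, h2, h3, h4⟩
    have h5 : (l : ℝ) ≤ k := by exact_mod_cast h1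
    have h6 : (k : ℝ) ≤ N := by exact_mod_cast h2
    have h7 : (0:ℝ) ≤ l := by positivity
    have h8 : (Z k : ℝ) = Z l := h3
    refine ⟨⟨u, ?_, ?_⟩, ⟨l, k, h1, h2, by exact_mod_cast h8, h4⟩, rfl⟩
    · rw [h4]; exact div_nonneg (by linarith) (by linarith)
    · rw [h4]; exact div_le_one_of_le₀ (by linarith) (by linarith)

lemma stable_span {f : ℝ≥0 → ℝ} (hf : Continuous f) (hnd : NDG f) :
    Stable (fun N z => walkSpanK N z) f (spanK fun y => f (tm y)) := by
  intro ε hε
  obtain ⟨δ, hδ, N0, h⟩ := stab hf hnd hε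
  refine ⟨δ, hδ, N0, fun N hN hN' a ha z hz hc => ?_⟩
  have h1 := h N hN hN' a ha z hz hc
  unfold walkSpanK spanK
  rw [dist_toK, ← Metric.hausdorffDist_image (isometry_subtype_coe (s := I)), image_walkSpanSet,
    image_spanSet]
  exact h1

lemma loc_coin (ι : Type) (N : ℕ) (z z' : ℕ → ℤ) (h : ∀ k ≤ N, z k = z' k) :
    walkCoinK ι N z = walkCoinK ι N z' := by
  have : walkCoinSet ι N z = walkCoinSet ι N z' := by
    ext u
    constructor
    · rintro ⟨k, h1, h2, h3⟩
      exact ⟨k, h1, fun i j => by rw [← h _ (h1 i), ← h _ (h1 j)]; exact h2 i j, h3⟩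
    · rintro ⟨k, h1, h2, h3⟩
      exact ⟨k, h1, fun i j => by rw [h _ (h1 i), h _ (h1 j)]; exact h2 i j, h3⟩
  simp only [walkCoinK, this]

lemma loc_span (N : ℕ) (z z' : ℕ → ℤ) (h : ∀ k ≤ N, z k = z' k) :
    walkSpanK N z = walkSpanK N z' := by
  have : walkSpanSet N z = walkSpanSet N z' := by
    ext u
    constructor
    · rintro ⟨l, k, h1, h2, h3, h4⟩
      exact ⟨l, k, h1, h2, by rw [← h k h2, ← h l (h1.trans h2)]; exact h3, h4⟩
    · rintro ⟨l, k, h1, h2, h3, h4⟩
      exact ⟨l, k, h1, h2, by rw [h k h2, h l (h1.trans h2)]; exact h3, h4⟩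
  simp only [walkSpanK, this]

lemma walk_invariant (RW : ℕ → ℤ) (c : ℤ) (ι : Type) (N : ℕ) :
    walkCoinK ι N (fun k => RW k - c) = walkCoinK ι N RW ∧
      walkSpanK N (fun k => RW k - c) = walkSpanK N RW := by
  constructor
  · simp only [walkCoinK, walkCoinSet, sub_left_inj]
  · simp only [walkSpanK, walkSpanSet, sub_left_inj]

/-- The nondegenerate paths are exactly the paths at which the coincidence sets of order two are
stable. -/
theorem nondeg_iff (x : C(I, ℝ)) : Nondeg x ↔
    ∀ (N : ℕ → ℕ) (a : ℕ → ℝ) (z : ℕ → ℕ → ℤ), Tendsto N atTop atTop → (∀ n, 0 < a n) →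
      (∀ n, ∀ k < N n, |z n (k + 1) - z n k| ≤ 1) →
      (∀ ε : ℝ, 0 < ε → ∀ᶠ n in atTop, ∀ k ≤ N n,
        |a n * z n k - x (projIcc 0 1 zero_le_one ((k : ℝ) / N n))| ≤ ε) →
      Tendsto (fun n => walkCoinK (Fin 2) (N n) (z n)) atTop (𝓝 (coinK (Fin 2) x)) := by
  constructor
  · intro h N a z hN ha hz hc
    have h1 := stable_coin (ι := Fin 2) (continuous_ext x) (ndg_ext h)
    simp only [ext_tm] at h1
    rw [Metric.tendsto_nhds]
    intro ε hε
    obtain ⟨δ, hδ, N0, h2⟩ := h1 (ε / 2) (by linarith)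
    filter_upwards [hN.eventually_ge_atTop (max N0 1), hc δ hδ] with n h3 h4
    refine (h2 (N n) ((le_max_left _ _).trans h3) ((le_max_right N0 1).trans h3) (a n) (ha n) (z n)
      (hz n) fun k hk => ?_).trans_lt (by linarith)
    rw [ext_grid]
    exact h4 k hk
  · intro h
    by_contra hnd
    obtain ⟨s, t, ε, N, z, heq, hε, hN, hz, hc, hno⟩ := unstable hnd
    have hlim := h N (fun j => 1 / ((j : ℝ) + 1)) z
      (tendsto_atTop_mono (fun j => (Nat.le_succ j).trans (hN j)) tendsto_id)
      (fun j => by positivity) hz (fun e he => by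
        have h3 : Tendsto (fun j : ℕ => 3 / ((j : ℝ) + 1)) atTop (𝓝 0) := by
          have := (tendsto_one_div_add_atTop_nhds_zero_nat (𝕜 := ℝ)).const_mul 3
          simpa only [mul_one_div, mul_zero] using this
        filter_upwards [h3.eventually (gt_mem_nhds he)] with j hj k _
        exact (hc j k).trans hj.le)
    obtain ⟨j, hj⟩ := ((Metric.tendsto_nhds.1 hlim) ε hε).exists
    rw [dist_comm] at hj
    unfold walkCoinK coinK at hj
    rw [dist_toK] at hj
    have hmem : (![s, t] : Fin 2 → I) ∈ coinSet (Fin 2) x := by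
      intro i l
      fin_cases i <;> fin_cases l <;> simp [heq]
    obtain ⟨u, ⟨k, hk1, hk2, hk3⟩, hu⟩ := Metric.exists_dist_lt_of_hausdorffDist_lt hmem hj
      (Metric.hausdorffEDist_ne_top_of_nonempty_of_bounded (coinSet_nonempty _ _)
        (walkCoinSet_nonempty _ _ _) (isCompact_univ.isBounded.subset (subset_univ _))
        (isCompact_univ.isBounded.subset (subset_univ _)))
    have hu' := (dist_pi_lt_iff hε).1 hu
    have h0 : dist (u 0) s < ε := by
      rw [dist_comm]; simpa using hu' 0
    have h1 : dist (u 1) t < ε := by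
      rw [dist_comm]; simpa using hu' 1
    exact hno j (u 0) (u 1) h0 h1 (k 0) (k 1) (hk3 0) (hk3 1) (hk2 0 1)

/-- **Coincidence sets of all orders and span sets: invariance principle for all nearest neighbour
processes.**

(1) The sets of the statements are closed: for continuous paths `coinK` and `spanK` are the
coincidence set and the span set themselves, and `walkCoinK`, `walkSpanK` always are.

(2) Let `Z n` be integer valued processes with steps in `{-1, 0, 1}` whose paths, rescaled by
`N n → ∞` in time and by `a n > 0` in space, converge in distribution in `C([0,1])` to a random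
continuous function `X` which is almost surely nondegenerate. Then the rescaled coincidence sets
of every finite order converge in distribution to those of `X` in the Hausdorff metric, and so do the
span sets.

(3) The condition is sharp: a path is nondegenerate if and only if the coincidence sets of order two
converge along all nearest neighbour paths which converge to it.

(3') Brownian paths are almost surely nondegenerate.

(4) For simple random walk and Brownian motion: the rescaled coincidence sets of every finite order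
and the rescaled span sets converge in distribution. -/
theorem result :
    ((∀ x : C(I, ℝ), (∀ ι : Type, (coinK ι x : Set (ι → I)) = coinSet ι x) ∧
        (spanK x : Set I) = spanSet x) ∧
      (∀ (N : ℕ) (z : ℕ → ℤ), (∀ (ι : Type) [Finite ι],
        (walkCoinK ι N z : Set (ι → I)) = walkCoinSet ι N z) ∧
        (walkSpanK N z : Set I) = walkSpanSet N z)) ∧
    (∀ (Ω : ℕ → Type) [∀ n, MeasurableSpace (Ω n)] (P : ∀ n, Measure (Ω n))
      [∀ n, IsProbabilityMeasure (P n)] (Ω' : Type) [MeasurableSpace Ω'] (P' : Measure Ω')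
      [IsProbabilityMeasure P'] [MeasurableSpace C(I, ℝ)] [BorelSpace C(I, ℝ)]
      (N : ℕ → ℕ) (a : ℕ → ℝ) (Z : ∀ n, ℕ → Ω n → ℤ) (W : ∀ n, Ω n → C(I, ℝ)) (X : Ω' → C(I, ℝ)),
      Tendsto N atTop atTop → (∀ n, 0 < a n) → (∀ n k, Measurable (Z n k)) →
      (∀ n, ∀ᵐ ω ∂P n, ∀ k < N n, |Z n (k + 1) ω - Z n k ω| ≤ 1) →
      TendstoInDistribution W atTop X P P' →
      (∀ ε : ℝ, 0 < ε → Tendsto (fun n => P n {ω | ∃ k ≤ N n,
        ε < |a n * Z n k ω - W n ω (projIcc 0 1 zero_le_one ((k : ℝ) / N n))|}) atTop (𝓝 0)) →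
      (∀ᵐ ω ∂P', Nondeg (X ω)) →
      (∀ (ι : Type) [Fintype ι] [MeasurableSpace (NonemptyCompacts (ι → I))]
        [BorelSpace (NonemptyCompacts (ι → I))],
        TendstoInDistribution (fun n ω => walkCoinK ι (N n) fun k => Z n k ω) atTop
          (fun ω => coinK ι (X ω)) P P') ∧
      (∀ [MeasurableSpace (NonemptyCompacts I)] [BorelSpace (NonemptyCompacts I)],
        TendstoInDistribution (fun n ω => walkSpanK (N n) fun k => Z n k ω) atTop
          (fun ω => spanK (X ω)) P P')) ∧
    (∀ x : C(I, ℝ), Nondeg x ↔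
      ∀ (N : ℕ → ℕ) (a : ℕ → ℝ) (z : ℕ → ℕ → ℤ), Tendsto N atTop atTop → (∀ n, 0 < a n) →
        (∀ n, ∀ k < N n, |z n (k + 1) - z n k| ≤ 1) →
        (∀ ε : ℝ, 0 < ε → ∀ᶠ n in atTop, ∀ k ≤ N n,
          |a n * z n k - x (projIcc 0 1 zero_le_one ((k : ℝ) / N n))| ≤ ε) →
        Tendsto (fun n => walkCoinK (Fin 2) (N n) (z n)) atTop (𝓝 (coinK (Fin 2) x))) ∧
    (∀ (Ω' : Type) [MeasurableSpace Ω'] (P' : Measure Ω') (B : ℝ≥0 → Ω' → ℝ),
      IsBrownianReal B P' →
      ∀ᵐ ω ∂P', ∃ x : C(I, ℝ), (∀ y : I, x y = B ⟨y, y.2.1⟩ ω) ∧ Nondeg x) ∧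
    (∀ (Ω Ω' : Type) [MeasurableSpace Ω] [MeasurableSpace Ω'] (P : Measure Ω) (P' : Measure Ω')
      [IsProbabilityMeasure P] [IsProbabilityMeasure P'] (RW : ℕ → Ω → ℤ) (B : ℝ≥0 → Ω' → ℝ),
      IsSimpleRandomWalk RW P → IsBrownianReal B P' →
      (∀ (ι : Type) [Fintype ι] [MeasurableSpace (NonemptyCompacts (ι → I))]
        [BorelSpace (NonemptyCompacts (ι → I))],
        TendstoInDistribution (fun N ω => walkCoinK ι N fun k => RW k ω) atTop
          (fun ω => coinK ι fun y => B ⟨y, y.2.1⟩ ω) (fun _ => P) P') ∧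
      (∀ [MeasurableSpace (NonemptyCompacts I)] [BorelSpace (NonemptyCompacts I)],
        TendstoInDistribution (fun N ω => walkSpanK N fun k => RW k ω) atTop
          (fun ω => spanK fun y => B ⟨y, y.2.1⟩ ω) (fun _ => P) P')) := by
  refine ⟨⟨fun x => ⟨fun ι => ?_, ?_⟩, fun N z => ⟨fun ι _ => ?_, ?_⟩⟩, ?_, nondeg_iff, ?_, ?_⟩
  · -- closedness of the coincidence set
    have h : coinSet ι x = coin ι (ext x) := by
      ext u
      simp only [coinSet, coin, ext_tm]
    change closure (coinSet ι x) = _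
    rw [h]
    exact (isClosed_coin (continuous_ext x)).closure_eq
  · change closure (spanSet x) = _
    have h0 : spanSet x = spanSet fun y => ext x (tm y) := by
      simp only [spanSet, ext_tm]
    have h1 : IsClosed (Subtype.val '' spanSet fun y => ext x (tm y)) := by
      rw [image_spanSet]; exact (isCompact_Sp (continuous_ext x)).isClosed
    have h2 : (spanSet fun y => ext x (tm y)) =
        Subtype.val ⁻¹' (Subtype.val '' spanSet fun y => ext x (tm y)) :=
      (Set.preimage_image_eq _ Subtype.val_injective).symm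
    rw [h0, h2]
    exact (h1.preimage continuous_subtype_val).closure_eq
  · change closure (walkCoinSet ι N z) = _
    exact (isClosed_coinN (ι := ι) N z).closure_eq
  · change closure (walkSpanSet N z) = _
    refine (Set.Finite.isClosed ?_).closure_eq
    have h1 : walkSpanSet N z ⊆ Subtype.val ⁻¹'
        ((fun p : ℕ × ℕ => ((p.2 : ℝ) - p.1) / N) ''
          ((Finset.range (N + 1) ×ˢ Finset.range (N + 1) : Finset (ℕ × ℕ)) : Set (ℕ × ℕ))) := by
      rintro u ⟨l, k, h1, h2, h3, h4⟩
      refine ⟨(l, k), ?_, h4.symm⟩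
      simp only [Finset.coe_product, Set.mem_prod, Finset.coe_range, Set.mem_Iio]
      omega
    exact (((Finset.finite_toSet _).image _).preimage Subtype.val_injective.injOn).subset h1
  · intro Ω _ P _ Ω' _ P' _ _ _ N a Z W X hN ha hZm hZ hW hWZ hX
    constructor
    · intro ι _ _ _
      refine invariance (T := fun N z => walkCoinK ι N z) hN ha hZm hZ hW hWZ (loc_coin ι) ?_
      filter_upwards [hX] with ω hω
      have h1 := stable_coin (ι := ι) (continuous_ext (X ω)) (ndg_ext hω)
      simpa only [ext_tm] using h1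
    · intro _ _
      refine invariance (T := fun N z => walkSpanK N z) hN ha hZm hZ hW hWZ loc_span ?_
      filter_upwards [hX] with ω hω
      have h1 := stable_span (continuous_ext (X ω)) (ndg_ext hω)
      simpa only [ext_tm] using h1
  · intro Ω' _ P' B hB
    obtain ⟨B', hB', hBB'⟩ := good_version hB
    filter_upwards [ae_ndg hB', hBB'] with ω h1 h2
    refine ⟨⟨fun y => B' (tm y) ω, (hB'.cont ω).comp continuous_tm⟩, fun y => h2 _, ?_⟩
    exact nondeg_of_ndg h1 fun y => rfl
  · intro Ω Ω' _ _ P P' _ _ RW B hRW hB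
    obtain ⟨B', hB', hBB'⟩ := good_version hB
    set ξ : ℕ → Ω → ℤ := fun k ω => RW (k + 1) ω - RW k ω with hξdef
    have hξ : Steps ξ P := ⟨fun k => (hRW.measurable _).sub (hRW.measurable _), hRW.indep,
      hRW.up, hRW.down⟩
    have hwalk : ∀ ω k, walk ξ k ω = RW k ω - RW 0 ω := by
      intro ω k
      simp only [walk, hξdef]
      exact Finset.sum_range_sub (fun k => RW k ω) k
    constructor
    · intro ι _ _ _
      have h1 : TendstoInDistribution
          (fun N ω => walkCoinK ι N fun k => walk ξ k ω) atTop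
          (fun ω => coinK ι fun y => B' (tm y) ω) (fun _ => P) P' := by
        refine donsker hξ hB' (T := fun N z => walkCoinK ι N z) (loc_coin ι) ?_
        filter_upwards [ae_ndg hB'] with ω hω
        exact stable_coin (hB'.cont ω) hω
      refine h1.congr (fun N => ?_) ?_
      · filter_upwards with ω
        simp only [hwalk]
        exact (walk_invariant (fun k => RW k ω) (RW 0 ω) ι N).1
      · filter_upwards [hBB'] with ω hω
        have h2 : (fun y : I => B' (tm y) ω) = fun y : I => B ⟨y, y.2.1⟩ ω := by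
          funext y; exact hω _
        simp only [h2]
    · intro _ _
      have h1 : TendstoInDistribution
          (fun N ω => walkSpanK N fun k => walk ξ k ω) atTop
          (fun ω => spanK fun y => B' (tm y) ω) (fun _ => P) P' := by
        refine donsker hξ hB' (T := fun N z => walkSpanK N z) loc_span ?_
        filter_upwards [ae_ndg hB'] with ω hω
        exact stable_span (hB'.cont ω) hω
      refine h1.congr (fun N => ?_) ?_
      · filter_upwards with ω
        simp only [hwalk]
        exact (walk_invariant (fun k => RW k ω) (RW 0 ω) (Fin 0) N).2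
      · filter_upwards [hBB'] with ω hω
        have h2 : (fun y : I => B' (tm y) ω) = fun y : I => B ⟨y, y.2.1⟩ ω := by
          funext y; exact hω _
        simp only [h2]

end Pool.Agent.Results.MP_52e894_pr.CoincidenceSets
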